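import Pool.Agent.V11232.SH.Main

/-!
Equality of a regular language with the shuffle of a regular language and a `DCM(1,1)` language is
undecidable. The definitions are in `Pool.Agent.V11232.SH`: `Shuf`, `DCM`, `DCM.lang` in `Base`,
`Code`, `Run`, `langOf` in `Code`, `shuffle` in `Main`.
-/

set_option autoImplicit false

namespace Pool.Agent.Results.MP_435b2a_lc.ShuffleEq

open Pool.Agent.V11232.SH

/-- There are a finite alphabet, a regular language `L` and a deterministic one-counter machine
`M`, reading one letter in each step and making at most one reversal, such that it is not decidable
for an automaton `c` whether `L` is the shuffle of the languages of `c` and `M`. -/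
theorem result : ∃ (A : Type) (_ : Finite A) (_ : Primcodable A) (L : Language A) (M : DCM A),
    L.IsRegular ∧ ¬ ComputablePred (fun c : Code A =>
      ∀ w, w ∈ L ↔ w ∈ shuffle (langOf c) M.lang) :=
  main

end Pool.Agent.Results.MP_435b2a_lc.ShuffleEq
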